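import Pool.Agent.Helper29.OV.Base1

/-!
# MP_81e84b_lc, project OV, packet UWP: from the words `V` to an omega-variable word
-/

namespace Pool.Agent.Helper74.OV

open Pool.Agent.Helper29.OV

/-- Read a symbol over the alphabet of all numbers as a symbol over `Fin m`. -/
def conv {m : ℕ} (a₀ : Fin m) : ℕ ⊕ ℕ → Sym m
  | Sum.inl c => Sum.inl ((List.finRange m).getD c a₀)
  | Sum.inr i => Sum.inr i

/-- Read a symbol over `Fin m` as a symbol over the alphabet of all numbers. -/
def unc {m : ℕ} : Sym m → ℕ ⊕ ℕ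
  | Sum.inl a => Sum.inl a.val
  | Sum.inr i => Sum.inr i

theorem conv_unc {m : ℕ} (a₀ : Fin m) (x : Sym m) : conv a₀ (unc x) = x := by
  rcases x with a | i
  · simp [conv, unc]
  · rfl

theorem V_succ (N : ℕ) (κ : ℕ → List (ℕ ⊕ ℕ)) (r b j : ℕ) :
    V N κ (r + 1) b (j + 1) = (List.replicate N (V N κ (r + 1) b j ++ [Sum.inr j] ++
      (V N κ r (b + 1) j).map (ren b j) ++ V N κ (r + 1) b j)).flatten := rfl

theorem V_succ_prefix (N : ℕ) (hN : 0 < N) (κ : ℕ → List (ℕ ⊕ ℕ)) (r b j : ℕ) :
    V N κ (r + 1) b j ++ [Sum.inr j] <+: V N κ (r + 1) b (j + 1) := by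
  obtain ⟨k, rfl⟩ : ∃ k, N = k + 1 := ⟨N - 1, by omega⟩
  rw [V_succ, List.replicate_succ, List.flatten_cons]
  simp only [List.append_assoc]
  refine ⟨?_, ?_⟩
  · exact ((V (k + 1) κ r (b + 1) j).map (ren b j) ++ (V (k + 1) κ (r + 1) b j ++
      (List.replicate k (V (k + 1) κ (r + 1) b j ++ ([Sum.inr j] ++
        ((V (k + 1) κ r (b + 1) j).map (ren b j) ++ V (k + 1) κ (r + 1) b j)))).flatten))
  · simp only [List.append_assoc]

theorem V_letters {M : Type} [Monoid M] (N : ℕ) (κ : ℕ → List (ℕ ⊕ ℕ)) (hκ : Kap M κ) (r : ℕ) :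
    ∀ b j x, x ∈ V N κ r b j → (∃ c, c < b ∧ x = Sum.inl c) ∨ (∃ i, i < j ∧ x = Sum.inr i) := by
  induction r with
  | zero =>
    intro b j x hx
    exact Or.inl ((hκ b).1 x hx)
  | succ r ih =>
    intro b j
    induction j with
    | zero =>
      intro x hx
      exact Or.inl ((hκ b).1 x hx)
    | succ j ihj =>
      intro x hx
      rw [V_succ] at hx
      have h1 : x ∈ V N κ (r + 1) b j ++ [Sum.inr j] ++
          (V N κ r (b + 1) j).map (ren b j) ++ V N κ (r + 1) b j := by
        rw [List.mem_flatten] at hx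
        obtain ⟨l, hl, hx⟩ := hx
        rw [List.mem_replicate] at hl
        rw [← hl.2]
        exact hx
      have h2 : x ∈ V N κ (r + 1) b j → (∃ c, c < b ∧ x = Sum.inl c) ∨
          (∃ i, i < j + 1 ∧ x = Sum.inr i) := by
        intro h
        rcases ihj x h with h | ⟨i, hi, h⟩
        · exact Or.inl h
        · exact Or.inr ⟨i, by omega, h⟩
      rw [List.mem_append, List.mem_append, List.mem_append, List.mem_singleton,
        List.mem_map] at h1
      rcases h1 with ((h | h) | ⟨y, hy, h⟩) | h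
      · exact h2 h
      · exact Or.inr ⟨j, by omega, h⟩
      · rcases ih (b + 1) j y hy with ⟨c, hc, rfl⟩ | ⟨i, hi, rfl⟩
        · by_cases hcb : c = b
          · subst hcb
            right
            refine ⟨j, by omega, ?_⟩
            rw [← h]
            simp [ren]
          · left
            refine ⟨c, by omega, ?_⟩
            rw [← h]
            simp [ren, hcb]
        · right
          refine ⟨i, by omega, ?_⟩
          rw [← h]
          rfl
      · exact h2 h

theorem V_prefix (N : ℕ) (hN : 0 < N) (κ : ℕ → List (ℕ ⊕ ℕ)) (r b j : ℕ) (d : ℕ) :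
    V N κ (r + 1) b j <+: V N κ (r + 1) b (j + d) := by
  induction d with
  | zero => exact List.prefix_rfl
  | succ d ih =>
    exact ih.trans ((List.prefix_append _ _).trans (V_succ_prefix N hN κ r b (j + d)))

theorem V_length_lt (N : ℕ) (hN : 0 < N) (κ : ℕ → List (ℕ ⊕ ℕ)) (r b j : ℕ) :
    (V N κ (r + 1) b j).length < (V N κ (r + 1) b (j + 1)).length := by
  have h := (V_succ_prefix N hN κ r b j).length_le
  rw [List.length_append, List.length_singleton] at h
  omega

theorem V_length (N : ℕ) (hN : 0 < N) (κ : ℕ → List (ℕ ⊕ ℕ)) (r b j : ℕ) :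
    j ≤ (V N κ (r + 1) b j).length := by
  induction j with
  | zero => omega
  | succ j ih =>
    have := V_length_lt N hN κ r b j
    omega

/-- The limit word. -/
def lim (N : ℕ) (κ : ℕ → List (ℕ ⊕ ℕ)) (r b : ℕ) (p : ℕ) : ℕ ⊕ ℕ :=
  (V N κ (r + 1) b (p + 1)).getD p (Sum.inl 0)

theorem lim_eq (N : ℕ) (hN : 0 < N) (κ : ℕ → List (ℕ ⊕ ℕ)) (r b j p : ℕ)
    (hp : p < (V N κ (r + 1) b j).length) :
    (V N κ (r + 1) b j)[p]? = some (lim N κ r b p) := by
  have hp1 : p < (V N κ (r + 1) b (p + 1)).length := V_length N hN κ r b (p + 1)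
  have h0 : (V N κ (r + 1) b (p + 1))[p]? = some (lim N κ r b p) := by
    unfold lim
    rw [List.getD_eq_getElem?_getD, List.getElem?_eq_getElem hp1]
    rfl
  have key : ∀ i k, i ≤ k → ∀ q, q < (V N κ (r + 1) b i).length →
      (V N κ (r + 1) b k)[q]? = (V N κ (r + 1) b i)[q]? := by
    intro i k hik q hq
    obtain ⟨d, rfl⟩ := Nat.exists_eq_add_of_le hik
    obtain ⟨t, ht⟩ := V_prefix N hN κ r b i d
    rw [← ht, List.getElem?_append_left hq]
  rcases le_total j (p + 1) with h | h
  · rw [← h0, key j (p + 1) h p hp]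
  · rw [← h0, key (p + 1) j h p hp1]

theorem V_eq_range (N : ℕ) (hN : 0 < N) (κ : ℕ → List (ℕ ⊕ ℕ)) (r b j : ℕ) :
    V N κ (r + 1) b j = (List.range (V N κ (r + 1) b j).length).map (lim N κ r b) := by
  apply List.ext_getElem?
  intro p
  by_cases hp : p < (V N κ (r + 1) b j).length
  · rw [lim_eq N hN κ r b j p hp, List.getElem?_map, List.getElem?_range hp]
    rfl
  · rw [List.getElem?_eq_none (by omega), List.getElem?_eq_none (by simp; omega)]

theorem lim_length (N : ℕ) (hN : 0 < N) (κ : ℕ → List (ℕ ⊕ ℕ)) (r b j : ℕ) :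
    lim N κ r b (V N κ (r + 1) b j).length = Sum.inr j := by
  have h1 := lim_eq N hN κ r b (j + 1) _ (V_length_lt N hN κ r b j)
  obtain ⟨t, ht⟩ := V_succ_prefix N hN κ r b j
  rw [← ht, List.append_assoc, List.getElem?_append_right (le_refl _), Nat.sub_self] at h1
  simp only [List.singleton_append, List.getElem?_cons_zero, Option.some.injEq] at h1
  exact h1.symm

theorem conv_inr {m : ℕ} (a₀ : Fin m) (x : ℕ ⊕ ℕ) (i : ℕ) (h : conv a₀ x = Sum.inr i) :
    x = Sum.inr i := by
  rcases x with c | k
  · simp [conv] at h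
  · simp only [conv, Sum.inr.injEq] at h
    rw [h]

theorem primrec_ren (b : ℕ) : Primrec₂ (ren b) := by
  have h : Primrec fun p : ℕ × (ℕ ⊕ ℕ) =>
      Sum.casesOn (motive := fun _ => ℕ ⊕ ℕ) p.2
        (fun c => if c = b then Sum.inr p.1 else Sum.inl c) (fun i => Sum.inr i) := by
    refine Primrec.sumCasesOn Primrec.snd ?_ ?_
    · refine Primrec.ite ?_ ?_ ?_
      · exact Primrec.eq.comp Primrec.snd (Primrec.const b)
      · exact Primrec.sumInr.comp (Primrec.fst.comp Primrec.fst)
      · exact Primrec.sumInl.comp Primrec.snd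
    · exact Primrec.sumInr.comp Primrec.snd
  refine h.of_eq ?_
  rintro ⟨j, c | i⟩
  · rfl
  · rfl

theorem primrec_rep {α β : Type} [Primcodable α] [Primcodable β] {g : α → List β}
    (hg : Primrec g) (N : ℕ) : Primrec fun x => (List.replicate N (g x)).flatten := by
  induction N with
  | zero => exact (Primrec.const []).of_eq fun x => by simp
  | succ N ih =>
    exact (Primrec.list_append.comp hg ih).of_eq fun x => by
      simp [List.replicate_succ]

theorem primrec_V (N : ℕ) (κ : ℕ → List (ℕ ⊕ ℕ)) (r : ℕ) : ∀ b, Primrec (V N κ r b) := by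
  induction r with
  | zero => intro b; exact Primrec.const (κ b)
  | succ r ih =>
    intro b
    have h : Primrec₂ fun (j : ℕ) (Vj : List (ℕ ⊕ ℕ)) =>
        (List.replicate N (Vj ++ [Sum.inr j] ++ (V N κ r (b + 1) j).map (ren b j) ++ Vj)).flatten := by
      refine primrec_rep (g := fun p : ℕ × List (ℕ ⊕ ℕ) =>
        p.2 ++ [Sum.inr p.1] ++ (V N κ r (b + 1) p.1).map (ren b p.1) ++ p.2) ?_ N
      refine Primrec.list_append.comp (Primrec.list_append.comp
        (Primrec.list_append.comp Primrec.snd ?_) ?_) Primrec.snd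
      · exact Primrec.list_cons.comp (Primrec.sumInr.comp Primrec.fst) (Primrec.const [])
      · exact Primrec.list_map ((ih (b + 1)).comp Primrec.fst)
          ((primrec_ren b).comp (Primrec.fst.comp Primrec.fst) Primrec.snd)
    have h2 := Primrec.nat_rec₁ (κ b) h
    exact h2.of_eq fun j => rfl

theorem primrec_conv {m : ℕ} (a₀ : Fin m) : Primrec (conv a₀) := by
  have h : Primrec fun p : ℕ ⊕ ℕ =>
      Sum.casesOn (motive := fun _ => Sym m) p
        (fun c => Sum.inl ((List.finRange m).getD c a₀)) (fun i => Sum.inr i) := by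
    refine Primrec.sumCasesOn Primrec.id ?_ ?_
    · exact Primrec.sumInl.comp ((Primrec.list_getD a₀).comp (Primrec.const _) Primrec.snd)
    · exact Primrec.sumInr.comp Primrec.snd
  refine h.of_eq ?_
  rintro (c | i)
  · rfl
  · rfl

/-- **UWP** (from the words `V` to an omega-variable word). -/
theorem universal {M : Type} [Monoid M] [Finite M] {m : ℕ} (a₀ : Fin m) (n : ℕ) :
    ∃ W : ℕ → Sym m, IsOmegaWord W ∧ Primrec W ∧ ∀ μ : Sym m → M, ∃ e : M,
      ∀ v, IsVarWord n v → ((subst W v).map μ).prod = e := by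
  obtain ⟨N, hN, hid, κ, hκ⟩ := exists_kap M
  have hL : ∀ j, conv a₀ (lim N κ n m (V N κ (n + 1) m j).length) = Sum.inr j := by
    intro j
    rw [lim_length N hN κ n m j]
    rfl
  have hlow : ∀ j p, conv a₀ (lim N κ n m p) = Sum.inr j → (V N κ (n + 1) m j).length ≤ p := by
    intro j p hp
    by_contra hlt
    rw [not_le] at hlt
    have h1 := lim_eq N hN κ n m j p hlt
    rw [conv_inr a₀ _ j hp] at h1
    rcases V_letters N κ hκ (n + 1) m j _ (List.mem_of_getElem? h1) with ⟨c, _, h⟩ | ⟨i, hi, h⟩
    · simp at h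
    · simp only [Sum.inr.injEq] at h
      omega
  refine ⟨fun p => conv a₀ (lim N κ n m p), ⟨fun i => ⟨_, hL i⟩, ?_⟩, ?_, ?_⟩
  · intro i p hp
    refine ⟨(V N κ (n + 1) m i).length, ?_, hL i⟩
    exact lt_of_lt_of_le (V_length_lt N hN κ n m i) (hlow (i + 1) p hp)
  · refine (primrec_conv a₀).comp ?_
    unfold lim
    exact (Primrec.list_getD (Sum.inl 0)).comp
      ((primrec_V N κ (n + 1) m).comp Primrec.succ) Primrec.id
  · intro μ
    obtain ⟨e, he⟩ := V_const N hN hid κ hκ (n + 1) m (fun x => μ (conv a₀ x))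
    refine ⟨e n, ?_⟩
    intro v hv
    have hVW : VW m n (v.map unc) := by
      refine ⟨?_, ?_, ?_, ?_⟩
      · intro c hc
        rw [List.mem_map] at hc
        obtain ⟨x, _, hx⟩ := hc
        rcases x with a | i
        · simp only [unc, Sum.inl.injEq] at hx
          rw [← hx]
          exact a.isLt
        · simp [unc] at hx
      · intro i hi
        rw [List.mem_map] at hi
        obtain ⟨x, hxv, hx⟩ := hi
        rcases x with a | k
        · simp [unc] at hx
        · simp only [unc, Sum.inr.injEq] at hx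
          rw [hx] at hxv
          exact hv.bound i hxv
      · intro i hi
        rw [List.mem_map]
        exact ⟨Sum.inr i, hv.occurs i hi, rfl⟩
      · intro i p hp
        rw [List.getElem?_map, Option.map_eq_some_iff] at hp
        obtain ⟨x, hx, hx2⟩ := hp
        rcases x with a | k
        · simp [unc] at hx2
        · simp only [unc, Sum.inr.injEq] at hx2
          rw [hx2] at hx
          obtain ⟨q, hq, hq2⟩ := hv.order i p hx
          refine ⟨q, hq, ?_⟩
          rw [List.getElem?_map, hq2]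
          rfl
    have h1 := (he n (by omega)).2 (v.map unc) hVW
    rw [List.length_map] at h1
    rw [← h1]
    have hs : sInf {p | conv a₀ (lim N κ n m p) = Sum.inr v.length} =
        (V N κ (n + 1) m v.length).length := by
      apply le_antisymm
      · exact Nat.sInf_le (hL v.length)
      · have hne : {p | conv a₀ (lim N κ n m p) = Sum.inr v.length}.Nonempty := ⟨_, hL v.length⟩
        exact hlow v.length _ (Nat.sInf_mem hne)
    have h2 : subst (fun p => conv a₀ (lim N κ n m p)) v =
        (V N κ (n + 1) m v.length).map (fun x => substSym v (conv a₀ x)) := by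
      unfold subst
      rw [hs]
      conv_rhs => rw [V_eq_range N hN κ n m v.length]
      rw [List.map_map]
      rfl
    rw [h2]
    unfold sub
    rw [List.map_map, List.map_map]
    congr 1
    apply List.map_congr_left
    intro x hx
    rcases V_letters N κ hκ (n + 1) m v.length x hx with ⟨c, _, rfl⟩ | ⟨i, hi, rfl⟩
    · rfl
    · change μ (v.getD i (Sum.inr i)) = μ (conv a₀ ((v.map unc).getD i (Sum.inr i)))
      rw [List.getD_eq_getElem?_getD, List.getD_eq_getElem?_getD, List.getElem?_map,
        List.getElem?_eq_getElem hi]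
      simp only [Option.map_some, Option.getD_some]
      rw [conv_unc]

end Pool.Agent.Helper74.OV
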